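import Mathlib
import Pool.Agent.P.MP_3ab3de_lc.Main

namespace Pool.Agent.Results.MP_3ab3de_lc.NoInaccessible

open Pool.Agent.P.MP_3ab3de_lc

/-- There is a transitive model `N` of ZFC with an uncountable cardinal `κ = κ^{<κ}` such that in
`N` every `Π¹₁` subset of `κ^κ` satisfies the Hurewicz dichotomy, while no inner model of `N` has
an inaccessible cardinal. -/
theorem result : ∃ N : Set ZFSet.{0}, TModel N ∧
    (∃ κ, GoodCard N κ ∧ ∀ A ∈ N, IsPi11 N κ A → Hurewicz N κ A) ∧
    ¬ ∃ I, InnerModel N I ∧ ∃ l, Inacc I l :=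
  main

end Pool.Agent.Results.MP_3ab3de_lc.NoInaccessible
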